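import Pool.Agent.Helper64.DT.Stmts

/-! MP_866009_co, project DT, module OPQ. -/

set_option autoImplicit false

namespace Pool.Agent.Helper64.DT

open Pool.Agent.Helper64.CT

private lemma opq_lt {V : Type} {Q : Set V} {θ : V → ℕ} (h : Set.InjOn θ Q) {a b : V}
    (ha : a ∈ Q) (hb : b ∈ Q) (hab : a ≠ b) :
    decide (θ b < θ a) = !(decide (θ a < θ b)) := by
  have hne : θ a ≠ θ b := fun e => hab (h ha hb e)
  rcases lt_or_gt_of_ne hne with h1 | h1
  · simp [h1, not_lt.2 h1.le]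
  · simp [h1, not_lt.2 h1.le]

/-- the component of `u` in `G - N[x]` lies in a component of `G - N[q]` when `q` is not one of its
attachments -/
private lemma opq_comp {V : Type} {G : SimpleGraph V} {x q u a b : V} (hxq : G.Adj x q)
    (hq : q ∉ Att G x u) (ha : Comp G x u a) (hb : Comp G x u b) : Comp G q a b := by
  have hf : ∀ w, Comp G x u w → w ∈ Far G q := by
    intro w hw
    refine ⟨?_, ?_⟩
    · intro e
      have := hw.right
      rw [e] at this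
      exact this.2 hxq
    · intro h
      exact hq ⟨hxq, w, hw, h⟩
  have hab : Comp G x a b := ha.symm.trans hb
  refine Comp.ind hab (fun z => Comp G q a z) (Comp.refl (hf a ha)) ?_
  intro z w hz hp hw hzw
  have hzw' : Comp G x u w := (ha.trans hz).step hw hzw
  exact hp.step (hf w hzw') hzw

theorem st_OPQ : ST_OPQ := by
  intro V G hDF Q θ σ t hM hCD x hx u v n n' hu hv htu htv hdis hn hn' hnQ hnQ' hnn
  obtain ⟨q, hqQ, hq⟩ := htu
  obtain ⟨q2, hq2Q, hq2⟩ := htv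
  have hqv : q ∉ Att G x v := hdis q hq
  have hq2u : q2 ∉ Att G x u := fun h => hdis q2 h hq2
  have hne : q ≠ q2 := fun e => hqv (e ▸ hq2)
  obtain ⟨hxq, u1, hu1, hqu1⟩ := hq
  obtain ⟨hxq2, v1, hv1, hq2v1⟩ := hq2
  obtain ⟨hxn, u2, hu2, hnu2⟩ := hn
  obtain ⟨hxn', v2, hv2, hnv2⟩ := hn'
  have hxqne : x ≠ q := hxq.ne
  have hxq2ne : x ≠ q2 := hxq2.ne
  have hout : ∀ w, w ∈ Far G x → w ∉ Q := by
    intro w hw hwQ
    exact hw.2 (hM.1 x hx w hwQ (fun e => hw.1 e.symm))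
  have hu1Q : u1 ∉ Q := hout u1 hu1.right
  have hv1Q : v1 ∉ Q := hout v1 hv1.right
  obtain ⟨hinj, hcd⟩ := hCD
  have e1 : t x u1 = xor (σ u1) (decide (θ q < θ x)) :=
    (hcd x hx).2 q hqQ hxqne.symm u1 hqu1 hu1Q
  have e2 : t x v1 = xor (σ v1) (decide (θ q2 < θ x)) :=
    (hcd x hx).2 q2 hq2Q hxq2ne.symm v1 hq2v1 hv1Q
  have e3 : t q2 n = xor (σ n) (decide (θ x < θ q2)) :=
    (hcd q2 hq2Q).2 x hx hxq2ne n hxn hnQ
  have e4 : t q2 u1 = xor (σ u1) (decide (θ q < θ q2)) :=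
    (hcd q2 hq2Q).2 q hqQ hne u1 hqu1 hu1Q
  have e5 : t q n' = xor (σ n') (decide (θ x < θ q)) :=
    (hcd q hqQ).2 x hx hxqne n' hxn' hnQ'
  have e6 : t q v1 = xor (σ v1) (decide (θ q2 < θ q)) :=
    (hcd q hqQ).2 q2 hq2Q hne.symm v1 hq2v1 hv1Q
  have e7 : t q n = xor (σ n) (decide (θ x < θ q)) :=
    (hcd q hqQ).2 x hx hxqne n hxn hnQ
  have fn : n ∈ Far G q2 := MaxC.out hDF hM hx hq2Q hxq2ne hnQ hxn
  have fn' : n' ∈ Far G q := MaxC.out hDF hM hx hqQ hxqne hnQ' hxn'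
  have fn2 : n ∈ Far G q := MaxC.out hDF hM hx hqQ hxqne hnQ hxn
  have c1 : Comp G q2 u1 n := (opq_comp hxq2 hq2u hu1 hu2).step fn hnu2.symm
  have c2 : Comp G q v1 n' := (opq_comp hxq hqv hv1 hv2).step fn' hnv2.symm
  have c3 : Comp G q n n' := Comp.adj fn2 fn' hnn
  have p1 : t q2 u1 = t q2 n := (hcd q2 hq2Q).1.1 _ _ c1
  have p2 : t q v1 = t q n' := (hcd q hqQ).1.1 _ _ c2
  have p3 : t q n = t q n' := (hcd q hqQ).1.1 _ _ c3
  have p4 : t x u = t x u1 := (hcd x hx).1.1 _ _ hu1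
  have p5 : t x v = t x v1 := (hcd x hx).1.1 _ _ hv1
  have l1 := opq_lt hinj hx hqQ hxqne
  have l2 := opq_lt hinj hx hq2Q hxq2ne
  have l3 := opq_lt hinj hqQ hq2Q hne
  rw [p4, p5, e1, e2, l1, l2]
  rw [e3, e4] at p1
  rw [e5, e6, l3] at p2
  rw [e5, e7] at p3
  revert p1 p2 p3
  generalize σ u1 = a1
  generalize σ v1 = a2
  generalize σ n = a3
  generalize σ n' = a4
  generalize decide (θ x < θ q) = b1
  generalize decide (θ x < θ q2) = b2
  generalize decide (θ q < θ q2) = b3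
  revert a1 a2 a3 a4 b1 b2 b3
  decide

end Pool.Agent.Helper64.DT
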